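import Pool.Agent.H810.Tunnel.Chain

/-!
# An unknotting tunnel which is neither an edge of the canonical triangulation nor dual to a face

Negative answer to Q1 of `MP_a11aea_gt`. The manifold has one cusp, and its canonical
triangulation has four tetrahedra; its edges and dual arcs are told apart from the tunnel by the
distance between the horospheres at their end points. The tunnel is an edge of a (non-geometric)
ideal triangulation with five tetrahedra which is obtained from the canonical one by three 2-3
moves and two 3-2 moves, and whose dual spine collapses to a graph once the 2-cell dual to the
tunnel is removed.
-/

set_option autoImplicit false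

open Pool.Agent.H810.Tunnel

/-- There are a one-cusped orientable hyperbolic 3-manifold whose canonical decomposition is a
triangulation `T`, and an unknotting tunnel `t` of it, such that `t` is homotopic (and hence
isotopic) to no edge of `T` and to the arc dual to no face of `T`. -/
theorem Pool.Agent.Results.MP_a11aea_gt.TunnelNotCanonical.result :
    ∃ (N : ℕ) (T : IdealTriangulation N) (S : Structure T), S.IsCanonical ∧
      ∃ t : Set Mink, S.IsTunnel t ∧ ¬ S.HomotopicToEdge t ∧ ¬ S.HomotopicToDual t :=
  Ex.main
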